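import Pool.Agent.X310.MuRay
import Pool.Agent.X310.MuGrp
import Pool.Agent.X27.Cln.Iso

/-!
# The vanishing of `μ` for totally real fields and irreducible modules

Let `p` be odd and `E` totally real, with the layers `E_n = E ℚ_n` of its cyclotomic `ℤ_p`-extension. By class field
theory `X_Σ`, `Σ = {v ∣ p ∞}`, is finitely generated over `ℤ_p` if and only if the number of elements of
`Cl_{p^m}(E_n) / p` is bounded in `m` and `n`, where `Cl_{p^m}(E_n)` is the ray class group modulo `p^m`. This is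
`RayBdd p E` below. Here `RayBd p m C L` says that the ideals of `L` which are prime to `p` have at most `C` classes
for the relation `RayEq`: `I ~ J` if `(x) I A^p = (y) J B^p` with `x ≡ y ≡ 1 mod p^m` and ideals `A`, `B` prime to `p`.

For a subgroup `D` of `Aut F` let `fx F D` be the field of the `x ∈ F` fixed by `D`. Let `H` and the `D i` be
subgroups of `Aut F` of orders prime to `p` such that every irreducible `𝔽_p[Aut F]`-module with a nonzero `H`-fixed
vector has a nonzero `D i`-fixed vector for some `i` (`Dominates p H D`). `comms c` is the subgroup generated by the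
commutators `g c g⁻¹ c⁻¹`.

* For each Galois extension `E` of `ℚ` of `p`-power degree,
  `|Cl_{p^m}(F^H E) / p| ≤ (∏ i, |Cl_{p^m}(F^{D_i} E) / p|) ^ |Aut F|`. So if `μ = 0` for the `F^{D_i}`, then `μ = 0`
  for `F^H`.
* Let `p` be odd and `c ∈ Aut F`, `c² = 1`. If `c ∈ comms c`, then `μ = 0` for `F` if and only if `μ = 0` for `F^c`.
  This holds for all the involutions `c` of nonabelian simple subgroups of `Aut F`.
* If `p` does not divide the order of `comms c`, then `μ = 0` for `F` if and only if `μ = 0` for `F^c` and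
  `F^{comms c}`.
* Granted the theorem of Ferrero and Washington, if `F / ℚ` is Galois and totally real and `p` does not divide the
  order of `comms c` and the quotient by `comms c` is abelian, then `μ = 0` for `F` if and only if `μ = 0` for `F^c`.
-/

set_option autoImplicit false

open NumberField

namespace Pool.Agent.Results.MP_4e64b4_nt.DominatedFixedFields

open Pool.Agent.X27.Cln Pool.Agent.X310.Mu

/-- For `p` odd and `F` totally real this says that `μ_p(F) = 0`. -/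
def RayBdd (p : ℕ) (F : IntermediateField ℚ ℂ) : Prop :=
  ∃ C : ℕ, ∀ (n m : ℕ) (E : IntermediateField ℚ ℂ),
    E ≤ IntermediateField.adjoin ℚ {z : ℂ | z ^ (p ^ (n + 1)) = 1} →
    Module.finrank ℚ E = p ^ n →
    ∀ [NumberField ↥(F ⊔ E)], RayBd p m C ↥(F ⊔ E)

/-- The theorem of Ferrero and Washington for the prime `p` and totally real fields. -/
def FerreroWashington (p : ℕ) : Prop :=
  ∀ F : IntermediateField ℚ ℂ, FiniteDimensional ℚ F → IsGalois ℚ F →
    (∀ σ τ : F ≃ₐ[ℚ] F, σ * τ = τ * σ) → IsTotallyReal F → RayBdd p F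

theorem fx_bot (F : IntermediateField ℚ ℂ) : fx F ⊥ = F := by
  apply le_antisymm (fx_le F ⊥)
  intro x hx
  refine ⟨⟨x, hx⟩, (IntermediateField.mem_fixedField_iff ⊥ _).2 ?_, rfl⟩
  intro f hf
  rw [Subgroup.mem_bot] at hf
  rw [hf]
  rfl

theorem mu_dom {p : ℕ} (hp : p.Prime) (F : IntermediateField ℚ ℂ) (_ : FiniteDimensional ℚ F)
    {ι : Type} [Fintype ι] (H : Subgroup (F ≃ₐ[ℚ] F)) (D : ι → Subgroup (F ≃ₐ[ℚ] F))
    (hH : ¬ p ∣ Nat.card H) (hD : ∀ i, ¬ p ∣ Nat.card (D i)) (hdom : Dominates p H D)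
    (h : ∀ i, RayBdd p (fx F (D i))) : RayBdd p (fx F H) := by
  have hpf : Fact p.Prime := ⟨hp⟩
  choose C hC using h
  refine ⟨(∏ i, C i) ^ Nat.card (F ≃ₐ[ℚ] F), fun n m E hE hEf hnf => ?_⟩
  have hfd : FiniteDimensional ℚ E := FiniteDimensional.of_finrank_pos (by rw [hEf]; exact pow_pos hp.pos n)
  have hg : IsGalois ℚ E := abelian_of_le _ (pow_pos hp.pos _) E hE
  have nF : NumberField F := ⟨⟩
  have hfx : ∀ D : Subgroup (F ≃ₐ[ℚ] F), FiniteDimensional ℚ (fx F D) := fun D => fx_fd F D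
  have hnf' : ∀ D : Subgroup (F ≃ₐ[ℚ] F), NumberField ↥(fx F D ⊔ E) := fun D => by
    have : FiniteDimensional ℚ ↥(fx F D ⊔ E) := inferInstance
    exact ⟨⟩
  have hnf2 : NumberField ↥(F ⊔ E) := by
    have : FiniteDimensional ℚ ↥(F ⊔ E) := inferInstance
    exact ⟨⟩
  have hnf3 : ∀ i, NumberField ↥(fx F (D i) ⊔ E) := fun i => hnf' (D i)
  exact rayBd_dom_cx F E n hEf H D hH hD hdom C fun i => hC i n m E hE hEf

theorem mu_sub {p : ℕ} (hp : p.Prime) (F : IntermediateField ℚ ℂ) (_ : FiniteDimensional ℚ F)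
    (D : Subgroup (F ≃ₐ[ℚ] F)) (hD : ¬ p ∣ Nat.card D) (h : RayBdd p F) : RayBdd p (fx F D) := by
  obtain ⟨C, hC⟩ := h
  refine ⟨C, fun n m E hE hEf hnf => ?_⟩
  have hfd : FiniteDimensional ℚ E := FiniteDimensional.of_finrank_pos (by rw [hEf]; exact pow_pos hp.pos n)
  have nF : NumberField F := ⟨⟩
  have hnf' : NumberField ↥(F ⊔ E) := by
    have : FiniteDimensional ℚ ↥(F ⊔ E) := inferInstance
    exact ⟨⟩
  exact rayBd_cx_down F E D hp hD (hC n m E hE hEf)

theorem card_bot {p : ℕ} (hp : p.Prime) {G : Type} [Group G] : ¬ p ∣ Nat.card (⊥ : Subgroup G) := by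
  rw [Subgroup.card_bot]
  exact hp.one_lt.ne' ∘ Nat.dvd_one.1

theorem mu_inv {p : ℕ} (hp : p.Prime) (hp2 : p ≠ 2) (F : IntermediateField ℚ ℂ) (hF : FiniteDimensional ℚ F)
    (c : F ≃ₐ[ℚ] F) (hc : c * c = 1) (hcc : c ∈ comms c) :
    RayBdd p F ↔ RayBdd p (fx F (Subgroup.zpowers c)) := by
  constructor
  · exact mu_sub hp F hF _ (card_zpowers_two hp hp2 hc)
  · intro h
    have h1 := mu_dom hp F hF ⊥ (fun _ : Unit => Subgroup.zpowers c) (card_bot hp)
      (fun _ => card_zpowers_two hp hp2 hc) (dominates_single hp hp2 hc hcc ⊥) (fun _ => h)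
    rwa [fx_bot] at h1

theorem mu_pair {p : ℕ} (hp : p.Prime) (hp2 : p ≠ 2) (F : IntermediateField ℚ ℂ) (hF : FiniteDimensional ℚ F)
    (c : F ≃ₐ[ℚ] F) (hc : c * c = 1) (hN : ¬ p ∣ Nat.card (comms c)) :
    RayBdd p F ↔ RayBdd p (fx F (Subgroup.zpowers c)) ∧ RayBdd p (fx F (comms c)) := by
  constructor
  · exact fun h => ⟨mu_sub hp F hF _ (card_zpowers_two hp hp2 hc) h, mu_sub hp F hF _ hN h⟩
  · rintro ⟨h, h'⟩
    have h1 := mu_dom hp F hF ⊥ (pair c) (card_bot hp)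
      (by rintro (_ | _); exacts [hN, card_zpowers_two hp hp2 hc]) (dominates_pair hc ⊥)
      (by rintro (_ | _); exacts [h', h])
    rwa [fx_bot] at h1

theorem real_sub {F M : IntermediateField ℚ ℂ} (hF : FiniteDimensional ℚ F) (hR : IsTotallyReal F) (hM : M ≤ F) :
    IsTotallyReal M := by
  have nF : NumberField F := ⟨⟩
  let : Algebra M F := (IntermediateField.inclusion hM).toRingHom.toAlgebra
  have : FiniteDimensional ℚ M := by
    exact FiniteDimensional.of_injective (IntermediateField.inclusion hM).toLinearMap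
      (IntermediateField.inclusion hM).injective
  have nM : NumberField M := ⟨⟩
  exact IsTotallyReal.of_algebra M F

theorem result (p : ℕ) (hp : p.Prime) :
    (∀ F : IntermediateField ℚ ℂ, FiniteDimensional ℚ F → ∀ (ι : Type) [Fintype ι]
      (H : Subgroup (F ≃ₐ[ℚ] F)) (D : ι → Subgroup (F ≃ₐ[ℚ] F)),
      ¬ p ∣ Nat.card H → (∀ i, ¬ p ∣ Nat.card (D i)) → Dominates p H D →
      (∀ (m : ℕ) (E : IntermediateField ℚ ℂ) [NumberField F] [NumberField ↥(F ⊔ E)] [NumberField ↥(fx F H ⊔ E)]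
        [∀ i, NumberField ↥(fx F (D i) ⊔ E)], FiniteDimensional ℚ E → IsGalois ℚ E →
        ∀ n, Module.finrank ℚ E = p ^ n → ∀ C : ι → ℕ, (∀ i, RayBd p m (C i) ↥(fx F (D i) ⊔ E)) →
        RayBd p m ((∏ i, C i) ^ Nat.card (F ≃ₐ[ℚ] F)) ↥(fx F H ⊔ E)) ∧
      ((∀ i, RayBdd p (fx F (D i))) → RayBdd p (fx F H))) ∧
    (p ≠ 2 → ∀ F : IntermediateField ℚ ℂ, FiniteDimensional ℚ F → ∀ c : F ≃ₐ[ℚ] F, c * c = 1 →
      (c ∈ comms c → (RayBdd p F ↔ RayBdd p (fx F (Subgroup.zpowers c)))) ∧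
      (c ≠ 1 → (∃ Γ : Subgroup (F ≃ₐ[ℚ] F), IsSimpleGroup Γ ∧ (∃ a b : Γ, a * b ≠ b * a) ∧ c ∈ Γ) →
        (RayBdd p F ↔ RayBdd p (fx F (Subgroup.zpowers c)))) ∧
      (¬ p ∣ Nat.card (comms c) →
        (RayBdd p F ↔ RayBdd p (fx F (Subgroup.zpowers c)) ∧ RayBdd p (fx F (comms c)))) ∧
      (FerreroWashington p → IsGalois ℚ F → IsTotallyReal F → ¬ p ∣ Nat.card (comms c) →
        (∀ g h : F ≃ₐ[ℚ] F, g * h * g⁻¹ * h⁻¹ ∈ comms c) →
        (RayBdd p F ↔ RayBdd p (fx F (Subgroup.zpowers c))))) := by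
  have hpf : Fact p.Prime := ⟨hp⟩
  refine ⟨fun F hF ι _ H D hH hD hdom => ⟨fun m E _ _ _ _ hE hEg n hn C hC => ?_,
    mu_dom hp F hF H D hH hD hdom⟩,
    fun hp2 F hF c hc => ⟨mu_inv hp hp2 F hF c hc, ?_, mu_pair hp hp2 F hF c hc, ?_⟩⟩
  · exact rayBd_dom_cx F E n hn H D hH hD hdom C hC
  · rintro hc1 ⟨Γ, hΓ, hn, hcΓ⟩
    exact mu_inv hp hp2 F hF c hc (comms_of_simple Γ hn hcΓ hc1)
  · intro hFW hG hR hN hab
    rw [mu_pair hp hp2 F hF c hc hN]
    have h1 := abelian_fx F (B := comms c) hab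
    have h2 := hFW _ (fx_fd F _) h1.1 h1.2 (real_sub hF hR (fx_le F _))
    exact ⟨fun h => h.1, fun h => ⟨h, h2⟩⟩

end Pool.Agent.Results.MP_4e64b4_nt.DominatedFixedFields
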