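import Pool.Agent.X310.RcG
import Pool.Agent.X27.Cln.Ray

/-!
# The vanishing of `μ` for totally real fields whose automorphism groups are Frobenius complements

Number fields are subfields of a fixed algebraic closure of `ℚ`. Let `p` be odd and `E` totally real, with the layers
`E_n = E ℚ_n` of its cyclotomic `ℤ_p`-extension. By class field theory `X_Σ`, `Σ = {v ∣ p ∞}`, is finitely generated
over `ℤ_p` if and only if the number of elements of `Cl_{p^m}(E_n) / p` is bounded in `m` and `n`, where `Cl_{p^m}(E_n)`
is the ray class group modulo `p^m`. This is `RayBdd p E` below (`μ_p(E) = 0`).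

Assume that `RayBdd p` is cohomological for totally real fields (`IsCohomologicalOn`): there is a class of pairs (a number
field `K`, a finite `𝔽_p`-representation `M` of the Galois group over `K`) which is closed under quotients and extensions,
satisfies the lemma of Shapiro for permutation modules and contains `(K, 𝔽_p)` for totally real `K` if and only if
`μ_p(K) = 0`. This is known; the class is given by `H²(G_S(K_∞), M) = 0`. Then:

* `μ_p(K) = 0` for all totally real `K` if and only if this holds for those totally real `K` for which `Aut K` has an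
  irreducible `𝔽_p`-module on which only `1` fixes a nonzero vector (so that `Aut K` is trivial or a Frobenius complement
  of order prime to `p`). If `Aut M` has no such module, then `μ_p(M) = 0` follows from `μ_p(L) = 0` for the proper
  subfields `L` of `M`.
* Let `M` be totally real and let `D i` be subgroups of `Aut M`, of any orders, such that each irreducible
  `𝔽_p[Aut M]`-module has a nonzero vector fixed by some `D i`. If `μ_p(M^{D i}) = 0` for all `i`, then `μ_p(M) = 0`.
* Let `τ ∈ Aut M`, `τ² = 1`. Then `μ_p(M) = 0` if and only if `μ_p = 0` for the fixed fields of `τ` and of the group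
  `comms τ` generated by the `g τ g⁻¹ τ⁻¹`; and if and only if `μ_p = 0` for `M^τ`, if `τ ∈ comms τ`, or if the field fixed
  by `comms τ` is abelian over `ℚ` and the theorem of Ferrero and Washington is granted.
-/

set_option autoImplicit false

namespace Pool.Agent.Results.MP_4e64b4_nt.FrobeniusComplements

open Pool.Agent.X307.MU Pool.Agent.X310.Rc Pool.Agent.X310.Mu Pool.Agent.X27.Cln NumberField

/-- For `p` odd and `F` totally real this says that `μ_p(F) = 0`. -/
def RayBdd (p : ℕ) (F : Fld ℚ) : Prop :=
  ∃ C : ℕ, ∀ (n m : ℕ) (E : Fld ℚ),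
    E ≤ IntermediateField.adjoin ℚ {z : AlgebraicClosure ℚ | z ^ (p ^ (n + 1)) = 1} →
    Module.finrank ℚ E = p ^ n →
    ∀ [NumberField ↥(F ⊔ E)], RayBd p m C ↥(F ⊔ E)

/-- The theorem of Ferrero and Washington for the prime `p` and totally real fields. -/
def FerreroWashington (p : ℕ) : Prop :=
  ∀ K : Fld ℚ, FiniteDimensional ℚ K → IsTotallyReal K → IsAbelianGalois ℚ K → RayBdd p K

/-- The theorem, see above. -/
theorem result {p : ℕ} [Fact p.Prime] (hp : p ≠ 2)
    (hmu : IsCohomologicalOn p (fun K => IsTotallyReal K) (RayBdd p)) :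
    ((∀ K : Fld ℚ, FiniteDimensional ℚ K → IsTotallyReal K → RayBdd p K) ↔
      ∀ K : Fld ℚ, FiniteDimensional ℚ K → IsTotallyReal K → HasFreeModule p (AutOf K) →
        RayBdd p K) ∧
    ∀ M : Fld ℚ, FiniteDimensional ℚ M → IsTotallyReal M →
      (∀ L, L ≤ M → RayBdd p M → RayBdd p L) ∧
      (∀ (ι : Type) (D : ι → Subgroup (AutOf M)), IsRichFamily p D →
        (∀ i, RayBdd p (fixOf M (D i))) → RayBdd p M) ∧
      (¬ HasFreeModule p (AutOf M) → (∀ L, L < M → RayBdd p L) → RayBdd p M) ∧
      ∀ τ : AutOf M, τ * τ = 1 →
        (RayBdd p M ↔ RayBdd p (fixOf M (Subgroup.zpowers τ)) ∧ RayBdd p (fixOf M (comms τ))) ∧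
        (τ ∈ comms τ → (RayBdd p M ↔ RayBdd p (fixOf M (Subgroup.zpowers τ)))) ∧
        (FerreroWashington p → IsAbelianGalois ℚ (fixOf M (comms τ)) →
          (RayBdd p M ↔ RayBdd p (fixOf M (Subgroup.zpowers τ)))) :=
  mu_aut hp (RayBdd p) hmu

end Pool.Agent.Results.MP_4e64b4_nt.FrobeniusComplements
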