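import Pool.Agent.X27.Cln.Ray

/-!
# The vanishing of `μ` for totally real fields and norm relations

Let `p` be odd and `E` totally real, with the layers `E_n = E ℚ_n` of its cyclotomic `ℤ_p`-extension. By class field
theory `X_Σ`, `Σ = {v ∣ p ∞}`, is finitely generated over `ℤ_p` if and only if the number of elements of
`Cl_{p^m}(E_n) / p` is bounded in `m` and `n`, where `Cl_{p^m}(E_n)` is the ray class group modulo `p^m`. (The
group `X_Σ / p` is a module over `𝔽_p[[T]]` whose `Γ^{p^n}`-coinvariants differ from the limit over `m` of the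
`Cl_{p^m}(E_n) / p` by a factor `p`.) This is `RayBdd p E` below. Here `RayBd p m C L` says that the ideals of `L` which
are prime to `p` have at most `C` classes for the relation `RayEq`: `I ~ J` if `(x) I A^p = (y) J B^p` with
`x ≡ y ≡ 1 mod p^m` and ideals `A`, `B` prime to `p`.

For a subgroup `D` of `Aut F` let `fx F D` be the field of the `x ∈ F` fixed by `D`, and let a family of subgroups
`D i ≤ Γ` be a partition (`IsPart Γ D`) if each element `≠ 1` of `Γ` lies in exactly one of them.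

* If `D` is a partition of `Γ ≤ Aut F` into `k` subgroups and `p ∤ k - 1`, then for every number field `E`
  the order of `Cl_{p^m}(F E) / p` is at most the product of the orders of the `Cl_{p^m}(F^{D_i} E) / p`.
* If `p ∤ |D|`, the order of `Cl_{p^m}(F^D E) / p` is at most that of `Cl_{p^m}(F E) / p`.
* So if `Γ ≤ Aut F` is a non-cyclic group of order `q r` (primes `q, r ≠ p`), `μ = 0` for `F` if and only if
  `μ = 0` for the `F^D`, `D ≤ Γ` of prime order.
* Let `F` be totally real. Then `μ = 0` for `F` if `μ = 0` for those (totally real) subfields `M` of `F` for which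
  every subgroup of `Aut M` of order `q r`, `q` and `r` prime, `max q r ≠ p`, is cyclic.
* If `μ = 0` passes from `F^D` to `F` when `|D| = p` (as `X_Σ` shows it does, by the theorem of Iwasawa), one may also
  suppose that `Aut M` has no element of order `p`.
-/

set_option autoImplicit false

open NumberField

namespace Pool.Agent.Results.MP_4e64b4_nt.NormRelations

open Pool.Agent.X27.Cln

/-- For `p` odd and `F` totally real this says that `μ_p(F) = 0`. -/
def RayBdd (p : ℕ) (F : IntermediateField ℚ ℂ) : Prop :=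
  ∃ C : ℕ, ∀ (n m : ℕ) (E : IntermediateField ℚ ℂ),
    E ≤ IntermediateField.adjoin ℚ {z : ℂ | z ^ (p ^ (n + 1)) = 1} →
    Module.finrank ℚ E = p ^ n →
    ∀ [NumberField ↥(F ⊔ E)], RayBd p m C ↥(F ⊔ E)

theorem mu_part {p : ℕ} (hp : p.Prime) (F : IntermediateField ℚ ℂ) (_ : FiniteDimensional ℚ F)
    (ι : Type) [Fintype ι] [Nonempty ι] (Γ : Subgroup (F ≃ₐ[ℚ] F)) (D : ι → Subgroup (F ≃ₐ[ℚ] F))
    (hD : IsPart Γ D) (hk : ¬ p ∣ Fintype.card ι - 1) (h : ∀ i, RayBdd p (fx F (D i))) : RayBdd p F := by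
  choose C hC using h
  refine ⟨∏ i, C i, fun n m E hE hEf hnf => ?_⟩
  have hfd : FiniteDimensional ℚ E := FiniteDimensional.of_finrank_pos (by rw [hEf]; exact pow_pos hp.pos n)
  have nF : NumberField F := ⟨⟩
  have hfx : ∀ i, FiniteDimensional ℚ (fx F (D i)) := fun i => fx_fd F (D i)
  have hnf' : ∀ i, NumberField ↥(fx F (D i) ⊔ E) := fun i => by
    have : FiniteDimensional ℚ ↥(fx F (D i) ⊔ E) := inferInstance
    exact ⟨⟩
  exact rayBd_cx F E hD hp hk C fun i => hC i n m E hE hEf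

theorem mu_sub {p : ℕ} (hp : p.Prime) (F : IntermediateField ℚ ℂ) (_ : FiniteDimensional ℚ F)
    (D : Subgroup (F ≃ₐ[ℚ] F)) (hD : ¬ p ∣ Nat.card D) (h : RayBdd p F) : RayBdd p (fx F D) := by
  obtain ⟨C, hC⟩ := h
  refine ⟨C, fun n m E hE hEf hnf => ?_⟩
  have hfd : FiniteDimensional ℚ E := FiniteDimensional.of_finrank_pos (by rw [hEf]; exact pow_pos hp.pos n)
  have nF : NumberField F := ⟨⟩
  have hnf' : NumberField ↥(F ⊔ E) := by
    have : FiniteDimensional ℚ ↥(F ⊔ E) := inferInstance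
    exact ⟨⟩
  exact rayBd_cx_down F E D hp hD (hC n m E hE hEf)

theorem mu_qr {p : ℕ} (hp : p.Prime) (F : IntermediateField ℚ ℂ) (hF : FiniteDimensional ℚ F)
    (Γ : Subgroup (F ≃ₐ[ℚ] F)) (q r : ℕ) (hq : q.Prime) (hr : r.Prime) (hqp : q ≠ p) (hrp : r ≠ p)
    (hc : Nat.card Γ = q * r) (hcyc : ¬ IsCyclic Γ) :
    RayBdd p F ↔ ∀ D : Subgroup (F ≃ₐ[ℚ] F), D ≤ Γ → (Nat.card D).Prime → RayBdd p (fx F D) := by
  classical
  constructor
  · intro h D hD hDp
    refine mu_sub hp F hF D ?_ h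
    have h1 : Nat.card D ∣ q * r := by rw [← hc]; exact Subgroup.card_dvd_of_le hD
    intro hd
    rcases (Nat.Prime.dvd_mul hp).1 (hd.trans h1) with h2 | h2
    · exact hqp ((Nat.prime_dvd_prime_iff_eq hp hq).1 h2).symm
    · exact hrp ((Nat.prime_dvd_prime_iff_eq hp hr).1 h2).symm
  · intro h
    have hfin : Finite (F ≃ₐ[ℚ] F) := inferInstance
    have : Fintype (Subgroup Γ) := Fintype.ofFinite _
    have hpt := isPart_map (prime_part (X := Γ) hq hr hc hcyc)
    have hcard := prime_part_card (X := Γ) hq hr hc hcyc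
    have hne : Nonempty (primeSubs Γ) := by
      rw [← Fintype.card_pos_iff, hcard]
      exact Nat.succ_pos _
    refine mu_part hp F hF (primeSubs Γ) Γ _ hpt ?_ ?_
    · rw [hcard, Nat.add_sub_cancel]
      intro hd
      rcases le_total q r with h1 | h1
      · rw [max_eq_right h1] at hd
        exact hrp ((Nat.prime_dvd_prime_iff_eq hp hr).1 hd).symm
      · rw [max_eq_left h1] at hd
        exact hqp ((Nat.prime_dvd_prime_iff_eq hp hq).1 hd).symm
    · rintro ⟨D, hD⟩
      simp only [primeSubs, Finset.mem_filter, Finset.mem_univ, true_and] at hD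
      refine h _ ?_ ?_
      · rintro _ ⟨x, _, rfl⟩
        exact x.2
      · rw [Subgroup.card_map_of_injective Γ.subtype_injective]
        exact hD

theorem real_sub {F M : IntermediateField ℚ ℂ} (hF : FiniteDimensional ℚ F) (h : IsTotallyReal F) (hM : M ≤ F) :
    IsTotallyReal M := by
  let : Algebra M F := (IntermediateField.inclusion hM).toRingHom.toAlgebra
  have h1 : IsScalarTower ℚ M F := IsScalarTower.of_algebraMap_eq fun x => rfl
  have h2 : Algebra.IsAlgebraic M F := Algebra.IsAlgebraic.tower_top (K := ℚ) M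
  exact IsTotallyReal.of_algebra M F

theorem result (p : ℕ) (hp : p.Prime) :
    (∀ (m : ℕ) (F E : IntermediateField ℚ ℂ) [NumberField F] [NumberField ↥(F ⊔ E)],
      (∀ (ι : Type) [Fintype ι] [Nonempty ι] (Γ : Subgroup (F ≃ₐ[ℚ] F)) (D : ι → Subgroup (F ≃ₐ[ℚ] F))
        [∀ i, NumberField ↥(fx F (D i) ⊔ E)] (C : ι → ℕ), IsPart Γ D → ¬ p ∣ Fintype.card ι - 1 →
        (∀ i, RayBd p m (C i) ↥(fx F (D i) ⊔ E)) → RayBd p m (∏ i, C i) ↥(F ⊔ E)) ∧
      ∀ (D : Subgroup (F ≃ₐ[ℚ] F)) [NumberField ↥(fx F D ⊔ E)] (C : ℕ), ¬ p ∣ Nat.card D →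
        RayBd p m C ↥(F ⊔ E) → RayBd p m C ↥(fx F D ⊔ E)) ∧
    (∀ F : IntermediateField ℚ ℂ, FiniteDimensional ℚ F → ∀ Γ : Subgroup (F ≃ₐ[ℚ] F), ∀ q r : ℕ,
      q.Prime → r.Prime → q ≠ p → r ≠ p → Nat.card Γ = q * r → ¬ IsCyclic Γ →
      (RayBdd p F ↔ ∀ D : Subgroup (F ≃ₐ[ℚ] F), D ≤ Γ → (Nat.card D).Prime → RayBdd p (fx F D))) ∧
    (∀ F : IntermediateField ℚ ℂ, FiniteDimensional ℚ F → IsTotallyReal F →
      (∀ M : IntermediateField ℚ ℂ, M ≤ F → IsTotallyReal M → Good p M → RayBdd p M) → RayBdd p F) ∧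
    ((∀ F : IntermediateField ℚ ℂ, FiniteDimensional ℚ F → ∀ D : Subgroup (F ≃ₐ[ℚ] F), Nat.card D = p →
        RayBdd p (fx F D) → RayBdd p F) →
      ∀ F : IntermediateField ℚ ℂ, FiniteDimensional ℚ F → IsTotallyReal F →
        (∀ M : IntermediateField ℚ ℂ, M ≤ F → IsTotallyReal M → Good p M →
          ¬ p ∣ Nat.card (M ≃ₐ[ℚ] M) → RayBdd p M) → RayBdd p F) := by
  refine ⟨fun m F E _ _ => ⟨fun ι _ _ Γ D _ C hD hk hC => rayBd_cx F E hD hp hk C hC,
    fun D _ C hD hC => rayBd_cx_down F E D hp hD hC⟩, mu_qr hp, ?_, ?_⟩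
  · intro F hF hR h
    exact reduce hp (RayBdd p) (fun F hF ι _ _ Γ D hD hk h => mu_part hp F hF ι Γ D hD hk h) F
      fun M hM hg => h M hM (real_sub hF hR hM) hg
  · intro hIw F hF hR h
    exact reduce' hp (RayBdd p) (fun F hF ι _ _ Γ D hD hk h => mu_part hp F hF ι Γ D hD hk h) hIw F
      fun M hM hg hc => h M hM (real_sub hF hR hM) hg hc

end Pool.Agent.Results.MP_4e64b4_nt.NormRelations
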